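import Pool.Agent.Helper156.PercInf

/-!
# An approximate correlation inequality for three-point connection patterns

If `P(ab|c) < ε ^ 4 / 640` then `P(abc) P(a|b|c) - P(ac|b) P(a|bc) < ε`, for Bernoulli bond
percolation on every locally finite connected simple graph, finite or infinite.
-/

namespace Pool.Agent.Results.MP_e813d2_pr.PatternInequality

open Finset MeasureTheory Filter Topology

universe u

/-- The law of the state of one edge: `true` (open) with probability `t`, `false` (closed) with
probability `1 - t`. -/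
noncomputable def coin (t : unitInterval) : Measure Bool :=
  ENNReal.ofReal (t : ℝ) • Measure.dirac true + ENNReal.ofReal (1 - (t : ℝ)) • Measure.dirac false

/-- The open subgraph: the spanning subgraph of `G` whose edges are the edges `e` of `G` with
`ω e = true`. -/
def openGraph {V : Type u} (G : SimpleGraph V) (ω : G.edgeSet → Bool) : SimpleGraph V :=
  SimpleGraph.fromEdgeSet {e | ∃ h : e ∈ G.edgeSet, ω ⟨e, h⟩ = true}

/-- The probability of the event `A` on the open subgraph, in Bernoulli bond percolation on `G`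
with edge probabilities `p e`: the law is the product measure on the configurations
`ω : G.edgeSet → Bool`. -/
noncomputable def prob {V : Type u} (G : SimpleGraph V) (p : G.edgeSet → unitInterval)
    (A : SimpleGraph V → Prop) : ℝ :=
  (Measure.infinitePi (fun e : G.edgeSet => coin (p e))).real {ω | A (openGraph G ω)}

open Helper156.Perc Helper156.PercInf

theorem prob_eq {V : Type u} (G : SimpleGraph V) (p : G.edgeSet → unitInterval)
    (A : SimpleGraph V → Prop) :
    prob G p A = (law p).real {ω | A (Helper156.PercInf.openGraph G ω)} := rfl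

/-- a locally finite connected graph is countable -/
theorem countable_of_locallyFinite {V : Type u} (G : SimpleGraph V)
    (hl : ∀ v, (G.neighborSet v).Finite) (hc : G.Connected) : Countable V := by
  obtain ⟨r⟩ := hc.nonempty
  let B : ℕ → Set V := fun n => Nat.rec {r} (fun _ S => S ∪ ⋃ v ∈ S, G.neighborSet v) n
  have hB0 : B 0 = {r} := rfl
  have hBs : ∀ n, B (n + 1) = B n ∪ ⋃ v ∈ B n, G.neighborSet v := fun n => rfl
  have hfin : ∀ n, (B n).Finite := by
    intro n
    induction n with
    | zero => rw [hB0]; exact Set.finite_singleton r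
    | succ n ih =>
      rw [hBs]
      exact ih.union (ih.biUnion (fun v _ => hl v))
  have hall : ∀ v, ∃ n, v ∈ B n := by
    intro v
    have hr := hc.preconnected r v
    rw [SimpleGraph.reachable_iff_reflTransGen] at hr
    induction hr with
    | refl => exact ⟨0, by rw [hB0]; rfl⟩
    | @tail y z _ hadj ih =>
      obtain ⟨n, hn⟩ := ih
      refine ⟨n + 1, ?_⟩
      rw [hBs]
      right
      simp only [Set.mem_iUnion]
      exact ⟨y, hn, hadj⟩
  have huniv : (Set.univ : Set V) = ⋃ n, B n := by
    ext v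
    simp only [Set.mem_univ, Set.mem_iUnion, true_iff]
    exact hall v
  rw [← Set.countable_univ_iff, huniv]
  exact Set.countable_iUnion (fun n => (hfin n).countable)

/-- the final arithmetic -/
theorem final_arith {ε s x : ℝ} (hε : 0 < ε) (hε1 : ε ≤ 1) (hs0 : 0 ≤ s)
    (hs : s < ε ^ 4 / 640) : B2 (ε / 4) (ε ^ 3 / 64) s x < ε := by
  unfold B2
  have hκ : 0 < ε ^ 3 / 64 := by positivity
  have h1 : s / (ε ^ 3 / 64) ≤ ε / 10 := by
    rw [div_le_iff₀ hκ]
    have : ε / 10 * (ε ^ 3 / 64) = ε ^ 4 / 640 := by ring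
    linarith
  have h2 : 5 * (ε ^ 3 / 64) / (2 * (ε / 4) ^ 2) = 5 / 8 * ε := by
    field_simp
    norm_num
  have h3 : x * (1 - x) ≤ 1 / 4 := by nlinarith [sq_nonneg (x - 1 / 2)]
  have h4 : 5 / 8 * ε * (x * (1 - x)) ≤ 5 / 8 * ε * (1 / 4) :=
    mul_le_mul_of_nonneg_left h3 (by positivity)
  have h5 : 1 / (2 * (ε ^ 3 / 64)) * (s * (1 - s)) ≤ 1 / 2 * (s / (ε ^ 3 / 64)) := by
    have e1 : 1 / 2 * (s / (ε ^ 3 / 64)) = 1 / (2 * (ε ^ 3 / 64)) * s := by
      field_simp
    rw [e1]
    apply mul_le_mul_of_nonneg_left _ (by positivity)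
    nlinarith [sq_nonneg s]
  have h6 : ε ^ 3 / 64 ≤ ε / 64 := by
    have : ε ^ 3 ≤ ε := by
      calc ε ^ 3 = ε * ε ^ 2 := by ring
        _ ≤ ε * 1 := mul_le_mul_of_nonneg_left (pow_le_one₀ hε.le hε1) hε.le
        _ = ε := mul_one _
    linarith
  rw [h2]
  linarith

/-- approximate decorrelation in finite volume -/
theorem decor {V : Type u} [DecidableEq V] {q : Sym2 V → ℝ} (hq01 : ∀ e, 0 ≤ q e ∧ q e ≤ 1)
    (a b c : V) (E : Finset (Sym2 V)) {ε : ℝ} (hε : 0 < ε)
    (h1 : P q E ∅ (fun T => R T a b ∧ ¬ R T a c) < ε ^ 4 / 640) :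
    P q E ∅ (fun T => R T a b ∧ R T a c) -
      P q E ∅ (fun T => R T a c) * P q E ∅ (fun T => R T b c) < ε := by
  rcases le_or_gt ε 1 with hε1 | hε1
  · have hmain := cov_ineq hq01 (l := ε / 4) (κ := ε ^ 3 / 64) (by positivity) (by linarith)
      (by positivity) a b c _ E ∅ rfl
    exact lt_of_le_of_lt hmain (final_arith hε hε1 (P_nonneg hq01 _) h1)
  · have k1 := P_le_one (E := E) (O := ∅) hq01 (fun T => R T a b ∧ R T a c)
    have k2 := mul_nonneg (P_nonneg (E := E) (O := ∅) hq01 (fun T => R T a c))
      (P_nonneg (E := E) (O := ∅) hq01 (fun T => R T b c))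
    linarith

/-- splitting an event -/
theorem prob_split {V : Type u} [Countable V] [DecidableEq V] (G : SimpleGraph V)
    (p : G.edgeSet → unitInterval) (A : SimpleGraph V → Prop) (x y : V) :
    prob G p (fun H => A H ∧ ¬ H.Reachable x y) =
      prob G p A - prob G p (fun H => A H ∧ H.Reachable x y) := by
  rw [prob_eq, prob_eq, prob_eq]
  have h := measureReal_inter_add_sdiff (μ := law p)
    (s := {ω | A (Helper156.PercInf.openGraph G ω)}) (measurable_reach (G := G) x y)
  have e1 : ({ω | A (Helper156.PercInf.openGraph G ω)} ∩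
      {ω | (Helper156.PercInf.openGraph G ω).Reachable x y}) =
      {ω : G.edgeSet → Bool | A (Helper156.PercInf.openGraph G ω) ∧
        (Helper156.PercInf.openGraph G ω).Reachable x y} := rfl
  have e2 : ({ω | A (Helper156.PercInf.openGraph G ω)} \
      {ω | (Helper156.PercInf.openGraph G ω).Reachable x y}) =
      {ω : G.edgeSet → Bool | A (Helper156.PercInf.openGraph G ω) ∧
        ¬ (Helper156.PercInf.openGraph G ω).Reachable x y} := rfl
  rw [e1, e2] at h
  linarith

theorem prob_congr {V : Type u} (G : SimpleGraph V)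
    (p : G.edgeSet → unitInterval) {A B : SimpleGraph V → Prop} (h : ∀ H, A H ↔ B H) :
    prob G p A = prob G p B := by
  have : A = B := funext fun H => propext (h H)
  rw [this]

theorem prob_true {V : Type u} [DecidableEq V] (G : SimpleGraph V)
    (p : G.edgeSet → unitInterval) : prob G p (fun _ => True) = 1 := by
  rw [prob_eq]
  have : {ω : G.edgeSet → Bool | True} = Set.univ := by
    ext; simp
  rw [this]
  exact probReal_univ

theorem prob_nonneg {V : Type u} (G : SimpleGraph V)
    (p : G.edgeSet → unitInterval) (A : SimpleGraph V → Prop) : 0 ≤ prob G p A :=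
  measureReal_nonneg

/-- approximate decorrelation in infinite volume -/
theorem decor_inf {V : Type u} [Countable V] [DecidableEq V] (G : SimpleGraph V)
    (p : G.edgeSet → unitInterval) (a b c : V) {ε : ℝ} (hε : 0 < ε)
    (h1 : prob G p (fun H => H.Reachable a b ∧ ¬ H.Reachable a c) < ε ^ 4 / 640) :
    prob G p (fun H => H.Reachable a b ∧ H.Reachable a c) -
      prob G p (fun H => H.Reachable a c) * prob G p (fun H => H.Reachable b c) < ε := by
  obtain ⟨ε', hε', hlt⟩ : ∃ ε' : ℝ, (0 < ε' ∧ ε' < ε) ∧
      prob G p (fun H => H.Reachable a b ∧ ¬ H.Reachable a c) < ε' ^ 4 / 640 := by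
    have hcont : Continuous (fun x : ℝ => x ^ 4 / 640) := by fun_prop
    have hev : ∀ᶠ x in 𝓝 ε,
        prob G p (fun H => H.Reachable a b ∧ ¬ H.Reachable a c) < x ^ 4 / 640 :=
      hcont.continuousAt.eventually (lt_mem_nhds h1)
    have hev' := hev.filter_mono (nhdsWithin_le_nhds (s := Set.Iio ε))
    have hI : ∀ᶠ x in 𝓝[<] ε, x ∈ Set.Ioo 0 ε := Ioo_mem_nhdsLT hε
    obtain ⟨x, hx1, hx2⟩ := (hI.and hev').exists
    exact ⟨x, hx1, hx2⟩
  rw [prob_split, prob_eq, prob_eq] at hlt
  rw [prob_eq, prob_eq, prob_eq]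
  have tab := tendsto_reach p a b
  have tac := tendsto_reach p a c
  have tbc := tendsto_reach p b c
  have tabc := tendsto_reach2 p a b c
  have hev := (tab.sub tabc).eventually (gt_mem_nhds hlt)
  refine lt_of_le_of_lt (le_of_tendsto (tabc.sub (tac.mul tbc)) ?_) hε'.2
  filter_upwards [hev] with F hF
  apply le_of_lt
  apply decor (ext_mem p) a b c _ hε'.1
  have hs := P_split (p := ext p) (E := F.map (val G)) (O := ∅) (fun T => R T a b)
    (fun T => R T a c)
  linarith

/-- **Theorem.** For every `ε > 0` there is `δ > 0` (one may take `δ = ε ^ 4 / 640`) such that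
for every locally finite connected simple graph `G`, finite or infinite, all edge probabilities
`p e ∈ [0, 1]` and all distinct vertices `a, b, c`: if `P(ab|c) < δ` then
`P(abc) P(a|b|c) - P(ac|b) P(a|bc) < ε`. -/
theorem result : ∀ ε : ℝ, 0 < ε → ∃ δ : ℝ, δ = ε ^ 4 / 640 ∧ 0 < δ ∧
    ∀ (V : Type u) (G : SimpleGraph V), (∀ v, (G.neighborSet v).Finite) → G.Connected →
      ∀ (p : G.edgeSet → unitInterval) (a b c : V), a ≠ b → a ≠ c → b ≠ c →
        prob G p (fun H => H.Reachable a b ∧ ¬ H.Reachable a c) < δ →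
        prob G p (fun H => H.Reachable a b ∧ H.Reachable a c) *
            prob G p (fun H => ¬ H.Reachable a b ∧ ¬ H.Reachable a c ∧ ¬ H.Reachable b c) -
          prob G p (fun H => H.Reachable a c ∧ ¬ H.Reachable a b) *
            prob G p (fun H => H.Reachable b c ∧ ¬ H.Reachable a b) < ε := by
  intro ε hε
  refine ⟨ε ^ 4 / 640, rfl, by positivity, ?_⟩
  intro V G hl hc p a b c _ _ _ h1
  classical
  have := countable_of_locallyFinite G hl hc
  have hdec := decor_inf G p a b c hε h1
  have hs0 := prob_nonneg G p (fun H => H.Reachable a b ∧ ¬ H.Reachable a c)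
  have hw0 := prob_nonneg G p (fun H => H.Reachable a b ∧ H.Reachable a c)
  -- the four pattern probabilities in terms of the connection probabilities
  have k1 := prob_split G p (fun H => H.Reachable a b) a c
  have k2 := prob_split G p (fun H => H.Reachable a c) a b
  have k2' : prob G p (fun H => H.Reachable a c ∧ H.Reachable a b) =
      prob G p (fun H => H.Reachable a b ∧ H.Reachable a c) :=
    prob_congr G p (fun H => and_comm)
  have k3 := prob_split G p (fun H => H.Reachable b c) a b
  have k3' : prob G p (fun H => H.Reachable b c ∧ H.Reachable a b) =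
      prob G p (fun H => H.Reachable a b ∧ H.Reachable a c) :=
    prob_congr G p (fun H => ⟨fun h => ⟨h.2, h.2.trans h.1⟩,
      fun h => ⟨h.1.symm.trans h.2, h.1⟩⟩)
  have k4 : prob G p (fun H => ¬ H.Reachable a b ∧ ¬ H.Reachable a c ∧ ¬ H.Reachable b c) =
      prob G p (fun H => (¬ H.Reachable a b ∧ ¬ H.Reachable a c) ∧ ¬ H.Reachable b c) :=
    prob_congr G p (fun H => and_assoc.symm)
  have k5 := prob_split G p (fun H => ¬ H.Reachable a b ∧ ¬ H.Reachable a c) b c
  have k5' : prob G p (fun H => (¬ H.Reachable a b ∧ ¬ H.Reachable a c) ∧ H.Reachable b c) =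
      prob G p (fun H => H.Reachable b c ∧ ¬ H.Reachable a b) :=
    prob_congr G p (fun H => ⟨fun h => ⟨h.2, h.1.1⟩,
      fun h => ⟨⟨h.2, fun h' => h.2 (h'.trans h.1.symm)⟩, h.1⟩⟩)
  have k6 := prob_split G p (fun H => ¬ H.Reachable a b) a c
  have k6' : prob G p (fun H => ¬ H.Reachable a b ∧ H.Reachable a c) =
      prob G p (fun H => H.Reachable a c ∧ ¬ H.Reachable a b) :=
    prob_congr G p (fun H => and_comm)
  have k7 := prob_split G p (fun _ => True) a b
  have k7' : prob G p (fun H => True ∧ ¬ H.Reachable a b) =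
      prob G p (fun H => ¬ H.Reachable a b) := prob_congr G p (fun H => ⟨fun h => h.2, fun h => ⟨trivial, h⟩⟩)
  have k7'' : prob G p (fun H => True ∧ H.Reachable a b) =
      prob G p (fun H => H.Reachable a b) := prob_congr G p (fun H => ⟨fun h => h.2, fun h => ⟨trivial, h⟩⟩)
  rw [prob_true] at k7
  rw [k7', k7''] at k7
  rw [k2'] at k2
  rw [k3'] at k3
  rw [k5'] at k5
  rw [k6'] at k6
  rw [k4, k5, k6, k7]
  set x := prob G p (fun H => H.Reachable a b) with hx
  set w := prob G p (fun H => H.Reachable a b ∧ H.Reachable a c) with hw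
  set y := prob G p (fun H => H.Reachable a c) with hy
  set z := prob G p (fun H => H.Reachable b c) with hz
  rw [k2, k3]
  rw [k1] at hs0
  have hfin : w * (1 - x - (y - w) - (z - w)) - (y - w) * (z - w) =
      (w - y * z) - (x - w) * w := by ring
  rw [hfin]
  have := mul_nonneg hs0 hw0
  linarith

end Pool.Agent.Results.MP_e813d2_pr.PatternInequality
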